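import Pool.Agent.H22.AN.Defs
import Pool.Agent.H27.SH.MON
import Pool.Agent.H35.SN.POH

/-!
# The monotonicity formula with its radial term, in all dimensions (MP_2697e3_an)
-/

set_option autoImplicit false

namespace Pool.Agent.H1.AN

open MeasureTheory Metric Set Filter Topology Pool.Agent.H87.SN Pool.Agent.H87.SH Pool.Agent.H87.AX
open Pool.Agent.H22.AN
open scoped ContDiff RealInnerProductSpace ENNReal
open Pool.Agent.H27.SH (inner_bv bv_apply statF_eq)
open Pool.Agent.H39.SN (nsq_nonneg)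
open Pool.Agent.H35.SN (nsq_integrable nsq_le)

noncomputable section

/-- the density of the profile -/
def kk (d : ℕ) (r s : ℝ) : ℝ := (2 * Real.sqrt (max s (r ^ 2)) ^ (d + 2))⁻¹

theorem sqrt_max_ge {r : ℝ} (_hr : 0 < r) (s : ℝ) : r ≤ Real.sqrt (max s (r ^ 2)) := by
  apply Real.le_sqrt_of_sq_le
  exact le_max_right _ _

theorem kk_cont (d : ℕ) {r : ℝ} (hr : 0 < r) : Continuous (kk d r) := by
  unfold kk
  refine Continuous.inv₀ (by fun_prop) fun s => ?_
  have := sqrt_max_ge hr s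
  have h2 : 0 < Real.sqrt (max s (r ^ 2)) := by linarith
  positivity

theorem kk_nonneg (d : ℕ) (r s : ℝ) : 0 ≤ kk d r s := by
  unfold kk
  positivity

theorem kk_le (d : ℕ) {r : ℝ} (hr : 0 < r) (s : ℝ) : kk d r s ≤ (2 * r ^ (d + 2))⁻¹ := by
  unfold kk
  apply inv_anti₀ (by positivity)
  have := sqrt_max_ge hr s
  gcongr

theorem kk_eq (d : ℕ) {r s : ℝ} (hs : r ^ 2 ≤ s) : kk d r s = (2 * Real.sqrt s ^ (d + 2))⁻¹ := by
  unfold kk
  rw [max_eq_left hs]

/-- the cutoffs -/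
def cn (r R : ℝ) (n : ℕ) (s : ℝ) : ℝ :=
  min 1 (max 0 (n * (s - r ^ 2) + 1)) * min 1 (max 0 (n * (R ^ 2 - s) - 1))

theorem cn_cont (r R : ℝ) (n : ℕ) : Continuous (cn r R n) := by
  unfold cn
  fun_prop

theorem cn_nonneg (r R : ℝ) (n : ℕ) (s : ℝ) : 0 ≤ cn r R n s := by
  unfold cn
  positivity

theorem cn_le (r R : ℝ) (n : ℕ) (s : ℝ) : cn r R n s ≤ 1 := by
  unfold cn
  exact mul_le_one₀ (min_le_left _ _) (by positivity) (min_le_left _ _)

theorem cn_zero {r R : ℝ} {n : ℕ} {s : ℝ} (h : n * (R ^ 2 - s) ≤ 1) : cn r R n s = 0 := by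
  unfold cn
  rw [max_eq_left (by linarith : n * (R ^ 2 - s) - 1 ≤ 0)]
  simp

theorem cn_lim {r R s : ℝ} (hs : s < R ^ 2) :
    Tendsto (fun n : ℕ => cn r R n s) atTop (𝓝 (if s < r ^ 2 then 0 else 1)) := by
  by_cases h : s < r ^ 2
  · rw [if_pos h]
    refine tendsto_const_nhds.congr' ?_
    obtain ⟨N, hN⟩ := exists_nat_ge ((r ^ 2 - s)⁻¹)
    filter_upwards [eventually_ge_atTop N] with n hn
    have hd : 0 < r ^ 2 - s := by linarith
    have h1 : (r ^ 2 - s)⁻¹ ≤ n := hN.trans (by exact_mod_cast hn)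
    have h2 : 1 ≤ n * (r ^ 2 - s) := by
      rw [inv_le_iff_one_le_mul₀ hd] at h1
      exact h1
    unfold cn
    rw [max_eq_left (by linarith : n * (s - r ^ 2) + 1 ≤ 0)]
    simp
  · rw [if_neg h]
    push Not at h
    refine tendsto_const_nhds.congr' ?_
    obtain ⟨N, hN⟩ := exists_nat_ge (2 * (R ^ 2 - s)⁻¹)
    filter_upwards [eventually_ge_atTop N] with n hn
    have hd : 0 < R ^ 2 - s := by linarith
    have h1 : 2 * (R ^ 2 - s)⁻¹ ≤ n := hN.trans (by exact_mod_cast hn)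
    have h2 : 2 ≤ n * (R ^ 2 - s) := by
      rw [← div_eq_mul_inv, div_le_iff₀ hd] at h1
      exact h1
    have h3 : 0 ≤ (n : ℝ) * (s - r ^ 2) := mul_nonneg (Nat.cast_nonneg _) (by linarith)
    unfold cn
    rw [max_eq_right (by linarith), max_eq_right (by linarith), min_eq_left (by linarith),
      min_eq_left (by linarith), one_mul]

/-- minus the derivative of the profile -/
def hn (d : ℕ) (r R : ℝ) (n : ℕ) (s : ℝ) : ℝ := kk d r s * cn r R n s

theorem hn_cont (d : ℕ) {r : ℝ} (hr : 0 < r) (R : ℝ) (n : ℕ) : Continuous (hn d r R n) :=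
  (kk_cont d hr).mul (cn_cont r R n)

theorem hn_nonneg (d : ℕ) (r R : ℝ) (n : ℕ) (s : ℝ) : 0 ≤ hn d r R n s :=
  mul_nonneg (kk_nonneg d r s) (cn_nonneg r R n s)

theorem hn_le (d : ℕ) {r : ℝ} (hr : 0 < r) (R : ℝ) (n : ℕ) (s : ℝ) :
    hn d r R n s ≤ (2 * r ^ (d + 2))⁻¹ := by
  calc kk d r s * cn r R n s ≤ kk d r s * 1 :=
        mul_le_mul_of_nonneg_left (cn_le r R n s) (kk_nonneg d r s)
    _ ≤ _ := by rw [mul_one]; exact kk_le d hr s

theorem hn_lim (d : ℕ) {r R s : ℝ} (hs : s < R ^ 2) :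
    Tendsto (fun n : ℕ => hn d r R n s) atTop (𝓝 (if s < r ^ 2 then 0 else kk d r s)) := by
  have h := (cn_lim (r := r) hs).const_mul (kk d r s)
  refine h.congr' (Eventually.of_forall fun n => rfl) |>.trans ?_
  by_cases h1 : s < r ^ 2
  · rw [if_pos h1, if_pos h1, mul_zero]
  · rw [if_neg h1, if_neg h1, mul_one]

/-- the profile -/
def Fn (d : ℕ) (r R : ℝ) (n : ℕ) (s : ℝ) : ℝ := ∫ σ in s..R ^ 2, hn d r R n σ

theorem Fn_deriv (d : ℕ) {r : ℝ} (hr : 0 < r) (R : ℝ) (n : ℕ) (s : ℝ) :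
    HasDerivAt (Fn d r R n) (-(hn d r R n s)) s :=
  intervalIntegral.integral_hasDerivAt_left ((hn_cont d hr R n).intervalIntegrable _ _)
    ((hn_cont d hr R n).stronglyMeasurableAtFilter _ _) (hn_cont d hr R n).continuousAt

theorem Fn_contDiff (d : ℕ) {r : ℝ} (hr : 0 < r) (R : ℝ) (n : ℕ) : ContDiff ℝ 1 (Fn d r R n) := by
  rw [contDiff_one_iff_deriv]
  refine ⟨fun s => (Fn_deriv d hr R n s).differentiableAt, ?_⟩
  have h : deriv (Fn d r R n) = fun s => -(hn d r R n s) :=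
    funext fun s => (Fn_deriv d hr R n s).deriv
  rw [h]
  exact (hn_cont d hr R n).neg

theorem Fn_zero {d : ℕ} {r R : ℝ} {n : ℕ} {s : ℝ} (h : n * (R ^ 2 - s) ≤ 1) :
    Fn d r R n s = 0 := by
  unfold Fn
  have h1 : ∀ σ ∈ uIcc s (R ^ 2), hn d r R n σ = 0 := by
    intro σ hσ
    unfold hn
    rw [cn_zero, mul_zero]
    have hn0 : (0 : ℝ) ≤ n := Nat.cast_nonneg _
    rcases mem_uIcc.1 hσ with ⟨h2, h3⟩ | ⟨h2, h3⟩
    · have : (n : ℝ) * (R ^ 2 - σ) ≤ n * (R ^ 2 - s) := mul_le_mul_of_nonneg_left (by linarith) hn0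
      linarith
    · have : (n : ℝ) * (R ^ 2 - σ) ≤ 0 := mul_nonpos_of_nonneg_of_nonpos hn0 (by linarith)
      linarith
  rw [intervalIntegral.integral_congr h1]
  simp

theorem Fn_bound (d : ℕ) {r R : ℝ} (hr : 0 < r) (n : ℕ) {s : ℝ} (hs0 : 0 ≤ s) (hs : s ≤ R ^ 2) :
    |Fn d r R n s| ≤ (2 * r ^ (d + 2))⁻¹ * R ^ 2 := by
  have h1 : ‖∫ σ in s..R ^ 2, hn d r R n σ‖ ≤ (2 * r ^ (d + 2))⁻¹ * |R ^ 2 - s| := by
    refine intervalIntegral.norm_integral_le_of_norm_le_const fun σ _ => ?_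
    rw [Real.norm_eq_abs, abs_of_nonneg (hn_nonneg _ _ _ _ _)]
    exact hn_le d hr R n σ
  rw [abs_of_nonneg (by linarith : 0 ≤ R ^ 2 - s)] at h1
  refine h1.trans ?_
  gcongr
  linarith

theorem sqrt_inv_deriv (d : ℕ) {s : ℝ} (hs : 0 < s) :
    HasDerivAt (fun σ : ℝ => -(Real.sqrt σ ^ d)⁻¹) (d * (2 * Real.sqrt s ^ (d + 2))⁻¹) s := by
  have h0 : Real.sqrt s ≠ 0 := (Real.sqrt_pos.2 hs).ne'
  have h1 := (((Real.hasDerivAt_sqrt hs.ne').pow d).inv (pow_ne_zero d h0)).neg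
  refine h1.congr_deriv ?_
  cases d with
  | zero => simp
  | succ k =>
    rw [Nat.add_sub_cancel]
    show -(-(((k + 1 : ℕ) : ℝ) * Real.sqrt s ^ k * (1 / (2 * Real.sqrt s))) /
      (Real.sqrt s ^ (k + 1)) ^ 2) = _
    field_simp
    ring

theorem int_kk (d : ℕ) {r R s : ℝ} (hr : 0 < r) (hR : 0 < R) (hs : r ^ 2 ≤ s) (hsR : s ≤ R ^ 2) :
    d * ∫ σ in s..R ^ 2, kk d r σ = (Real.sqrt s ^ d)⁻¹ - (R ^ d)⁻¹ := by
  have h1 : ∫ σ in s..R ^ 2, d * kk d r σ =
      -(Real.sqrt (R ^ 2) ^ d)⁻¹ - -(Real.sqrt s ^ d)⁻¹ := by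
    refine intervalIntegral.integral_eq_sub_of_hasDerivAt (f := fun σ => -(Real.sqrt σ ^ d)⁻¹)
      (fun σ hσ => ?_) ((continuous_const.mul (kk_cont d hr)).intervalIntegrable _ _)
    rw [uIcc_of_le hsR] at hσ
    have h2 : r ^ 2 ≤ σ := hs.trans hσ.1
    have h3 : 0 < σ := lt_of_lt_of_le (by positivity) h2
    rw [kk_eq d h2]
    exact sqrt_inv_deriv d h3
  rw [← intervalIntegral.integral_const_mul, h1, Real.sqrt_sq hR.le]
  ring

theorem ae_ne' (a : ℝ) : ∀ᵐ x : ℝ, x ≠ a := by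
  have h : ({a} : Set ℝ)ᶜ ∈ ae (volume : Measure ℝ) := compl_mem_ae_iff.2 (measure_singleton a)
  exact h

theorem Fn_lim (d : ℕ) {r R s : ℝ} (hr : 0 < r) (hrR : r < R) (hs : s < R ^ 2) :
    Tendsto (fun n : ℕ => d * Fn d r R n s) atTop
      (𝓝 (if s < r ^ 2 then (r ^ d)⁻¹ - (R ^ d)⁻¹ else (Real.sqrt s ^ d)⁻¹ - (R ^ d)⁻¹)) := by
  have hR : 0 < R := by linarith
  have hrR2 : r ^ 2 ≤ R ^ 2 := by gcongr
  have h1 : Tendsto (fun n : ℕ => ∫ σ in s..R ^ 2, hn d r R n σ) atTop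
      (𝓝 (∫ σ in s..R ^ 2, if σ < r ^ 2 then 0 else kk d r σ)) := by
    refine intervalIntegral.tendsto_integral_filter_of_dominated_convergence
      (fun _ => (2 * r ^ (d + 2))⁻¹) ?_ ?_ ?_ ?_
    · exact Eventually.of_forall fun n => (hn_cont d hr R n).aestronglyMeasurable
    · refine Eventually.of_forall fun n => Eventually.of_forall fun σ _ => ?_
      rw [Real.norm_eq_abs, abs_of_nonneg (hn_nonneg _ _ _ _ _)]
      exact hn_le d hr R n σ
    · exact intervalIntegrable_const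
    · filter_upwards [ae_ne' (R ^ 2)] with σ hσ hm
      rw [uIoc_of_le hs.le] at hm
      exact hn_lim d (lt_of_le_of_ne hm.2 hσ)
  have h2 : d * (∫ σ in s..R ^ 2, if σ < r ^ 2 then 0 else kk d r σ) =
      if s < r ^ 2 then (r ^ d)⁻¹ - (R ^ d)⁻¹ else (Real.sqrt s ^ d)⁻¹ - (R ^ d)⁻¹ := by
    have h3 : ∀ a, r ^ 2 ≤ a → a ≤ R ^ 2 →
        d * (∫ σ in a..R ^ 2, if σ < r ^ 2 then 0 else kk d r σ) =
        (Real.sqrt a ^ d)⁻¹ - (R ^ d)⁻¹ := by
      intro a ha haR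
      rw [← int_kk d hr hR ha haR]
      congr 1
      refine intervalIntegral.integral_congr fun σ hσ => ?_
      rw [uIcc_of_le haR] at hσ
      show (if σ < r ^ 2 then 0 else kk d r σ) = kk d r σ
      rw [if_neg (not_lt.2 (ha.trans hσ.1))]
    have hint : ∀ a b, IntervalIntegrable (fun σ => if σ < r ^ 2 then 0 else kk d r σ)
        volume a b := by
      intro a b
      have h4 : (fun σ => if σ < r ^ 2 then 0 else kk d r σ) = (Iio (r ^ 2))ᶜ.indicator (kk d r) := by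
        funext σ
        by_cases h5 : σ < r ^ 2
        · rw [if_pos h5, indicator_of_notMem (show σ ∉ (Iio (r ^ 2))ᶜ from fun h6 => h6 h5)]
        · rw [if_neg h5, indicator_of_mem (show σ ∈ (Iio (r ^ 2))ᶜ from h5)]
      rw [h4, intervalIntegrable_iff]
      exact ((intervalIntegrable_iff.1 ((kk_cont d hr).intervalIntegrable a b))).indicator
        measurableSet_Iio.compl
    by_cases h : s < r ^ 2
    · have h4 : (∫ σ in s..r ^ 2, if σ < r ^ 2 then 0 else kk d r σ) = 0 := by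
        refine intervalIntegral.integral_zero_ae ?_
        filter_upwards [ae_ne' (r ^ 2)] with σ hσ hm
        rw [uIoc_of_le h.le] at hm
        rw [if_pos (lt_of_le_of_ne hm.2 hσ)]
      rw [if_pos h, ← intervalIntegral.integral_add_adjacent_intervals (hint s (r ^ 2))
        (hint (r ^ 2) (R ^ 2)), h4, zero_add, h3 _ le_rfl hrR2, Real.sqrt_sq hr.le]
    · rw [if_neg h]
      exact h3 s (not_lt.1 h) hs.le
  rw [← h2]
  exact h1.const_mul _

variable {d : ℕ}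

/-- the field -/
def Xn (r R : ℝ) (x : V d) (n : ℕ) (y : V d) : V d := Fn d r R n (‖y - x‖ ^ 2) • (y - x)

theorem Xn_contDiff {r : ℝ} (hr : 0 < r) (R : ℝ) (x : V d) (n : ℕ) :
    ContDiff ℝ 1 (Xn r R x n) := by
  have h1 : ContDiff ℝ 1 (fun y : V d => y - x) := contDiff_id.sub contDiff_const
  exact ((Fn_contDiff d hr R n).comp ((contDiff_norm_sq ℝ).comp h1)).smul h1

theorem Xn_supp {r R : ℝ} (hR : 0 < R) (x : V d) (n : ℕ) :
    tsupport (Xn r R x n) ⊆ {y : V d | 1 ≤ (n : ℝ) * (R ^ 2 - ‖y - x‖ ^ 2)} ∧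
    {y : V d | 1 ≤ (n : ℝ) * (R ^ 2 - ‖y - x‖ ^ 2)} ⊆ ball x R ∧
    HasCompactSupport (Xn r R x n) := by
  have hc : IsClosed {y : V d | 1 ≤ (n : ℝ) * (R ^ 2 - ‖y - x‖ ^ 2)} :=
    isClosed_le continuous_const (by fun_prop)
  have h1 : tsupport (Xn r R x n) ⊆ {y : V d | 1 ≤ (n : ℝ) * (R ^ 2 - ‖y - x‖ ^ 2)} := by
    refine closure_minimal ?_ hc
    intro y hy
    by_contra hne
    apply hy
    have h2 : (n : ℝ) * (R ^ 2 - ‖y - x‖ ^ 2) ≤ 1 := by
      by_contra h3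
      push Not at h3
      exact hne h3.le
    unfold Xn
    rw [Fn_zero h2, zero_smul]
  have h2 : {y : V d | 1 ≤ (n : ℝ) * (R ^ 2 - ‖y - x‖ ^ 2)} ⊆ ball x R := by
    intro y hy
    rw [mem_ball, dist_eq_norm]
    by_contra hne
    push Not at hne
    have h3 : (n : ℝ) * (R ^ 2 - ‖y - x‖ ^ 2) ≤ 0 :=
      mul_nonpos_of_nonneg_of_nonpos (Nat.cast_nonneg _) (by nlinarith)
    have h4 : (1 : ℝ) ≤ (n : ℝ) * (R ^ 2 - ‖y - x‖ ^ 2) := hy
    linarith
  refine ⟨h1, h2, ?_⟩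
  exact (isCompact_closedBall x R).of_isClosed_subset (isClosed_tsupport _)
    ((h1.trans h2).trans ball_subset_closedBall)

theorem Xn_deriv {r : ℝ} (hr : 0 < r) (R : ℝ) (x : V d) (n : ℕ) (y : V d) (i j : Fin (d + 2)) :
    (fderiv ℝ (Xn r R x n) y (bv i)) j = Fn d r R n (‖y - x‖ ^ 2) * (if i = j then 1 else 0) -
      2 * hn d r R n (‖y - x‖ ^ 2) * ((y - x) i * (y - x) j) := by
  have h1 : HasFDerivAt (fun y : V d => y - x) (ContinuousLinearMap.id ℝ (V d)) y :=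
    (hasFDerivAt_id y).sub_const x
  have h2 := h1.norm_sq
  have h3 := (Fn_deriv d hr R n (‖y - x‖ ^ 2)).comp_hasFDerivAt y h2
  have h4 := (h3.smul h1).fderiv
  have e : fderiv ℝ (Xn r R x n) y (bv i) = Fn d r R n (‖y - x‖ ^ 2) • (bv i : V d) +
      (-(hn d r R n (‖y - x‖ ^ 2)) * (2 * ⟪y - x, (bv i : V d)⟫)) • (y - x) := by
    have e1 : fderiv ℝ (Xn r R x n) y = _ := h4
    rw [e1]
    simp
    rw [inner_sub_left]
  rw [e]
  show Fn d r R n (‖y - x‖ ^ 2) * (bv i : V d) j +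
    (-(hn d r R n (‖y - x‖ ^ 2)) * (2 * ⟪y - x, (bv i : V d)⟫)) * (y - x) j = _
  rw [bv_apply, inner_bv]
  ring

theorem statF_Xn {m : ℕ} {r : ℝ} (hr : 0 < r) (R : ℝ) (x : V d) (n : ℕ) (y : V d)
    (L : V d →L[ℝ] E m) :
    statF L (fderiv ℝ (Xn r R x n) y) = d * Fn d r R n (‖y - x‖ ^ 2) * nsq L -
      2 * hn d r R n (‖y - x‖ ^ 2) * ‖y - x‖ ^ 2 * nsq L +
      4 * hn d r R n (‖y - x‖ ^ 2) * ‖L (y - x)‖ ^ 2 := by
  rw [statF_eq L _ (Fn d r R n (‖y - x‖ ^ 2)) (2 * hn d r R n (‖y - x‖ ^ 2)) (y - x)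
    (Xn_deriv hr R x n y)]
  push_cast
  ring

/-- the limit of the integrand -/
def AA {m : ℕ} (G : V d → V d →L[ℝ] E m) (r R : ℝ) (x y : V d) : ℝ :=
  (ball x r).indicator (fun y => (r ^ d)⁻¹ * nsq (G y)) y - (R ^ d)⁻¹ * nsq (G y) +
    2 * (ball x r)ᶜ.indicator (fun y => (‖y - x‖ ^ (d + 2))⁻¹ * ‖G y (y - x)‖ ^ 2) y

theorem AA_lim {m : ℕ} (G : V d → V d →L[ℝ] E m) {r R : ℝ} (hr : 0 < r) (hrR : r < R) (x y : V d)
    (hy : y ∈ ball x R) :
    Tendsto (fun n : ℕ => statF (G y) (fderiv ℝ (Xn r R x n) y)) atTop (𝓝 (AA G r R x y)) := by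
  have hs : ‖y - x‖ ^ 2 < R ^ 2 := by
    rw [mem_ball, dist_eq_norm] at hy
    exact pow_lt_pow_left₀ hy (norm_nonneg _) (by norm_num)
  have h1 := Fn_lim d hr hrR hs
  have h2 := hn_lim (r := r) d hs
  have h3 := ((h1.mul_const (nsq (G y))).sub ((h2.const_mul 2).mul_const
    (‖y - x‖ ^ 2 * nsq (G y)))).add ((h2.const_mul 4).mul_const (‖G y (y - x)‖ ^ 2))
  have h4 : ∀ n : ℕ, statF (G y) (fderiv ℝ (Xn r R x n) y) =
      d * Fn d r R n (‖y - x‖ ^ 2) * nsq (G y) - 2 * hn d r R n (‖y - x‖ ^ 2) *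
        (‖y - x‖ ^ 2 * nsq (G y)) + 4 * hn d r R n (‖y - x‖ ^ 2) * ‖G y (y - x)‖ ^ 2 := by
    intro n
    rw [statF_Xn hr]
    ring
  rw [tendsto_congr h4]
  refine h3.trans (le_of_eq ?_)
  congr 1
  unfold AA
  by_cases hyr : y ∈ ball x r
  · have hs1 : ‖y - x‖ ^ 2 < r ^ 2 := by
      rw [mem_ball, dist_eq_norm] at hyr
      exact pow_lt_pow_left₀ hyr (norm_nonneg _) (by norm_num)
    rw [if_pos hs1, if_pos hs1, indicator_of_mem hyr, indicator_of_notMem (notMem_compl_iff.2 hyr)]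
    ring
  · have hyr' : r ≤ ‖y - x‖ := by
      rw [mem_ball, dist_eq_norm] at hyr
      exact not_lt.1 hyr
    have hs1 : r ^ 2 ≤ ‖y - x‖ ^ 2 := by gcongr
    have ht : 0 < ‖y - x‖ := by linarith
    have hRd : (R : ℝ) ^ d ≠ 0 := by
      have : 0 < R := by linarith
      positivity
    rw [if_neg (not_lt.2 hs1), if_neg (not_lt.2 hs1), indicator_of_notMem hyr,
      indicator_of_mem (mem_compl hyr), kk_eq d hs1, Real.sqrt_sq ht.le]
    have e1 : 2 * (2 * ‖y - x‖ ^ (d + 2))⁻¹ * (‖y - x‖ ^ 2 * nsq (G y)) =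
        (‖y - x‖ ^ d)⁻¹ * nsq (G y) := by
      field_simp
      ring
    have e2 : 4 * (2 * ‖y - x‖ ^ (d + 2))⁻¹ * ‖G y (y - x)‖ ^ 2 =
        2 * ((‖y - x‖ ^ (d + 2))⁻¹ * ‖G y (y - x)‖ ^ 2) := by
      rw [mul_inv]
      ring
    rw [e1, e2]
    ring

theorem meas_rad {m : ℕ} {G : V d → V d →L[ℝ] E m} {μ : Measure (V d)}
    (hG : AEStronglyMeasurable G μ) (x : V d) :
    AEStronglyMeasurable (fun y => ‖G y (y - x)‖ ^ 2) μ := by
  have hev : Continuous fun p : (V d →L[ℝ] E m) × V d => p.1 p.2 :=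
    continuous_fst.clm_apply continuous_snd
  have hlin : Continuous fun y : V d => y - x := by fun_prop
  have h2 := hev.comp_aestronglyMeasurable (hG.prodMk hlin.aestronglyMeasurable)
  exact h2.norm.pow 2

theorem rad_le {m : ℕ} (L : V d →L[ℝ] E m) {v : V d} {R : ℝ} (hv : ‖v‖ ≤ R) :
    ‖L v‖ ^ 2 ≤ R ^ 2 * ‖L‖ ^ 2 := by
  have h1 : ‖L v‖ ≤ ‖L‖ * ‖v‖ := L.le_opNorm v
  have h2 : ‖L‖ * ‖v‖ ≤ ‖L‖ * R := mul_le_mul_of_nonneg_left hv (norm_nonneg _)
  calc ‖L v‖ ^ 2 ≤ (‖L‖ * R) ^ 2 := pow_le_pow_left₀ (norm_nonneg _) (h1.trans h2) 2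
    _ = _ := by ring

/-- the energy measure of a set -/
theorem mu_real {m : ℕ} {G : V d → V d →L[ℝ] E m}
    (hG : MemLp G 2 (volume.restrict (ball (0 : V d) 2))) {S : Set (V d)} (hS : MeasurableSet S)
    (hSb : S ⊆ ball 0 2) : (mu G).real S = ∫ x in S, nsq (G x) := by
  have h1 : (volume.restrict (ball (0 : V d) 2)).restrict S = volume.restrict S := by
    rw [Measure.restrict_restrict hS, inter_eq_self_of_subset_left hSb]
  have hN : AEStronglyMeasurable (fun x => nsq (G x)) (volume.restrict S) :=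
    (nsq_integrable hG).1.mono_measure (Measure.restrict_mono hSb le_rfl)
  rw [Measure.real, mu, withDensity_apply _ hS, h1,
    integral_eq_lintegral_of_nonneg_ae (Eventually.of_forall fun x => nsq_nonneg _) hN]

/-- The monotonicity formula with its radial term. -/
theorem mono_formula {m : ℕ} {G : V d → V d →L[ℝ] E m}
    (hG : MemLp G 2 (volume.restrict (ball (0 : V d) 2))) (hS : Stat1 G) (x : V d) {r R : ℝ}
    (hr : 0 < r) (hrR : r < R) (hb : ball x R ⊆ ball 0 2) :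
    IntegrableOn (fun y => (‖y - x‖ ^ (d + 2))⁻¹ * ‖G y (y - x)‖ ^ 2) (ball x R \ ball x r) ∧
    th G x r + 2 * ∫ y in ball x R \ ball x r, (‖y - x‖ ^ (d + 2))⁻¹ * ‖G y (y - x)‖ ^ 2 =
      th G x R := by
  have hR : 0 < R := by linarith
  have hbr : ball x r ⊆ ball 0 2 := (ball_subset_ball hrR.le).trans hb
  -- integrability on the large ball
  have hG1 : Integrable (fun y => ‖G y‖ ^ 2) (volume.restrict (ball (0 : V d) 2)) :=
    hG.integrable_norm_pow (by norm_num)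
  have hG2 : Integrable (fun y => ‖G y‖ ^ 2) (volume.restrict (ball x R)) :=
    hG1.mono_measure (Measure.restrict_mono hb le_rfl)
  have hGm : AEStronglyMeasurable G (volume.restrict (ball x R)) :=
    hG.1.mono_measure (Measure.restrict_mono hb le_rfl)
  have hN : Integrable (fun y => nsq (G y)) (volume.restrict (ball x R)) :=
    (nsq_integrable hG).mono_measure (Measure.restrict_mono hb le_rfl)
  have hrad := meas_rad hGm x
  have hinvm : Measurable fun y : V d => (‖y - x‖ ^ (d + 2))⁻¹ := by fun_prop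
  -- the radial part
  have hI : IntegrableOn (fun y => (‖y - x‖ ^ (d + 2))⁻¹ * ‖G y (y - x)‖ ^ 2)
      (ball x R \ ball x r) := by
    have h1 : Integrable (fun y => ‖G y‖ ^ 2) (volume.restrict (ball x R \ ball x r)) :=
      hG2.mono_measure (Measure.restrict_mono sdiff_subset le_rfl)
    refine Integrable.mono' (h1.const_mul ((r ^ (d + 2))⁻¹ * R ^ 2)) ?_ ?_
    · exact hinvm.aestronglyMeasurable.mul
        (hrad.mono_measure (Measure.restrict_mono sdiff_subset le_rfl))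
    · rw [ae_restrict_iff' (measurableSet_ball.diff measurableSet_ball)]
      refine Eventually.of_forall fun y hy => ?_
      have h2 : ‖y - x‖ ≤ R := by
        have := hy.1
        rw [mem_ball, dist_eq_norm] at this
        exact this.le
      have h3 : r ≤ ‖y - x‖ := by
        have := hy.2
        rw [mem_ball, dist_eq_norm] at this
        exact not_lt.1 this
      rw [Real.norm_eq_abs, abs_of_nonneg (by positivity), mul_assoc]
      refine mul_le_mul ?_ (rad_le (G y) h2) (by positivity) (by positivity)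
      apply inv_anti₀ (by positivity)
      gcongr
  refine ⟨hI, ?_⟩
  -- stationarity
  have hzero : ∀ n : ℕ, ∫ y in ball x R, statF (G y) (fderiv ℝ (Xn r R x n) y) = 0 := by
    intro n
    obtain ⟨h1, h2, h3⟩ := Xn_supp (r := r) hR x n
    have h4 := hS (Xn r R x n) (Xn_contDiff hr R x n) h3 ((h1.trans h2).trans hb)
    rw [setIntegral_eq_integral_of_forall_compl_eq_zero, h4]
    intro y hy
    rw [statF_Xn hr]
    have h5 : R ≤ ‖y - x‖ := by
      rw [mem_ball, dist_eq_norm] at hy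
      exact not_lt.1 hy
    have h6 : (n : ℝ) * (R ^ 2 - ‖y - x‖ ^ 2) ≤ 1 := by
      have : (n : ℝ) * (R ^ 2 - ‖y - x‖ ^ 2) ≤ 0 :=
        mul_nonpos_of_nonneg_of_nonpos (Nat.cast_nonneg _) (by nlinarith)
      linarith
    unfold hn
    rw [Fn_zero h6, cn_zero h6]
    ring
  have hlim : Tendsto (fun n : ℕ => ∫ y in ball x R, statF (G y) (fderiv ℝ (Xn r R x n) y)) atTop
      (𝓝 (∫ y in ball x R, AA G r R x y)) := by
    obtain ⟨B, hB⟩ : ∃ B : ℝ, B = (2 * r ^ (d + 2))⁻¹ := ⟨_, rfl⟩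
    have hB0 : 0 ≤ B := by rw [hB]; positivity
    refine tendsto_integral_of_dominated_convergence
      (fun y => (d * (B * R ^ 2) * (d + 2) + 2 * B * R ^ 2 * (d + 2) + 4 * B * R ^ 2) *
        ‖G y‖ ^ 2) ?_ (hG2.const_mul _) ?_ ?_
    · intro n
      have e : (fun y => statF (G y) (fderiv ℝ (Xn r R x n) y)) = fun y =>
          d * Fn d r R n (‖y - x‖ ^ 2) * nsq (G y) -
          2 * hn d r R n (‖y - x‖ ^ 2) * ‖y - x‖ ^ 2 * nsq (G y) +
          4 * hn d r R n (‖y - x‖ ^ 2) * ‖G y (y - x)‖ ^ 2 :=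
        funext fun y => statF_Xn hr R x n y (G y)
      rw [e]
      have c1 : Continuous fun y : V d => d * Fn d r R n (‖y - x‖ ^ 2) :=
        continuous_const.mul ((Fn_contDiff d hr R n).continuous.comp (by fun_prop))
      have c2 : Continuous fun y : V d => hn d r R n (‖y - x‖ ^ 2) :=
        (hn_cont d hr R n).comp (by fun_prop)
      have c3 : Continuous fun y : V d => 2 * hn d r R n (‖y - x‖ ^ 2) * ‖y - x‖ ^ 2 := by
        fun_prop
      have c4 : Continuous fun y : V d => 4 * hn d r R n (‖y - x‖ ^ 2) := by fun_prop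
      exact ((c1.aestronglyMeasurable.mul hN.1).sub (c3.aestronglyMeasurable.mul hN.1)).add
        (c4.aestronglyMeasurable.mul hrad)
    · intro n
      rw [ae_restrict_iff' measurableSet_ball]
      refine Eventually.of_forall fun y hy => ?_
      have hy' : ‖y - x‖ ≤ R := by
        rw [mem_ball, dist_eq_norm] at hy
        exact hy.le
      have hs : ‖y - x‖ ^ 2 ≤ R ^ 2 := by gcongr
      rw [statF_Xn hr, Real.norm_eq_abs]
      have b1 : |Fn d r R n (‖y - x‖ ^ 2)| ≤ B * R ^ 2 := by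
        rw [hB]
        exact Fn_bound d hr n (R := R) (sq_nonneg ‖y - x‖) hs
      have b2 : hn d r R n (‖y - x‖ ^ 2) ≤ B := by
        rw [hB]
        exact hn_le d hr R n (‖y - x‖ ^ 2)
      have b3 := hn_nonneg d r R n (‖y - x‖ ^ 2)
      have b4 : nsq (G y) ≤ (d + 2) * ‖G y‖ ^ 2 := by
        have := nsq_le (G y)
        push_cast at this
        exact this
      have b5 := nsq_nonneg (G y)
      have b6 := rad_le (G y) hy'
      have t1 : |d * Fn d r R n (‖y - x‖ ^ 2) * nsq (G y)| ≤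
          (d * (B * R ^ 2)) * ((d + 2) * ‖G y‖ ^ 2) := by
        rw [abs_mul, abs_of_nonneg b5, abs_mul, abs_of_nonneg (Nat.cast_nonneg d)]
        gcongr
      have t2 : |2 * hn d r R n (‖y - x‖ ^ 2) * ‖y - x‖ ^ 2 * nsq (G y)| ≤
          2 * B * R ^ 2 * ((d + 2) * ‖G y‖ ^ 2) := by
        rw [abs_of_nonneg (by positivity)]
        gcongr
      have t3 : |4 * hn d r R n (‖y - x‖ ^ 2) * ‖G y (y - x)‖ ^ 2| ≤
          4 * B * (R ^ 2 * ‖G y‖ ^ 2) := by
        rw [abs_of_nonneg (by positivity)]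
        gcongr
      calc |d * Fn d r R n (‖y - x‖ ^ 2) * nsq (G y) -
          2 * hn d r R n (‖y - x‖ ^ 2) * ‖y - x‖ ^ 2 * nsq (G y) +
          4 * hn d r R n (‖y - x‖ ^ 2) * ‖G y (y - x)‖ ^ 2| ≤
          (d * (B * R ^ 2)) * ((d + 2) * ‖G y‖ ^ 2) + 2 * B * R ^ 2 * ((d + 2) * ‖G y‖ ^ 2) +
            4 * B * (R ^ 2 * ‖G y‖ ^ 2) := by
            refine (abs_add_le _ _).trans (add_le_add ((abs_sub _ _).trans (add_le_add t1 t2)) t3)
        _ = _ := by ring
    · rw [ae_restrict_iff' measurableSet_ball]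
      exact Eventually.of_forall fun y hy => AA_lim G hr hrR x y hy
  have hA0 : ∫ y in ball x R, AA G r R x y = 0 := by
    refine tendsto_nhds_unique hlim ?_
    simp only [hzero]
    exact tendsto_const_nhds
  -- the integral of the limit
  have i1 : Integrable (fun y => (ball x r).indicator (fun y => (r ^ d)⁻¹ * nsq (G y)) y)
      (volume.restrict (ball x R)) := (hN.const_mul _).indicator measurableSet_ball
  have i2 : Integrable (fun y => (R ^ d)⁻¹ * nsq (G y)) (volume.restrict (ball x R)) :=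
    hN.const_mul _
  have hset : ball x R ∩ (ball x r)ᶜ = ball x R \ ball x r := rfl
  have i3 : Integrable (fun y => 2 * (ball x r)ᶜ.indicator
      (fun y => (‖y - x‖ ^ (d + 2))⁻¹ * ‖G y (y - x)‖ ^ 2) y) (volume.restrict (ball x R)) := by
    refine Integrable.const_mul ?_ 2
    rw [integrable_indicator_iff measurableSet_ball.compl, IntegrableOn,
      Measure.restrict_restrict measurableSet_ball.compl, inter_comm, hset]
    exact hI
  have hA : ∫ y in ball x R, AA G r R x y = (r ^ d)⁻¹ * (∫ y in ball x r, nsq (G y)) -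
      (R ^ d)⁻¹ * (∫ y in ball x R, nsq (G y)) +
      2 * ∫ y in ball x R \ ball x r, (‖y - x‖ ^ (d + 2))⁻¹ * ‖G y (y - x)‖ ^ 2 := by
    have e0 : ∫ y in ball x R, AA G r R x y = ∫ y in ball x R,
        ((ball x r).indicator (fun y => (r ^ d)⁻¹ * nsq (G y)) y - (R ^ d)⁻¹ * nsq (G y) +
        2 * (ball x r)ᶜ.indicator (fun y => (‖y - x‖ ^ (d + 2))⁻¹ * ‖G y (y - x)‖ ^ 2) y) := rfl
    have i12 : Integrable (fun y => (ball x r).indicator (fun y => (r ^ d)⁻¹ * nsq (G y)) y -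
        (R ^ d)⁻¹ * nsq (G y)) (volume.restrict (ball x R)) := i1.sub i2
    rw [e0, integral_add i12 i3, integral_sub i1 i2, integral_const_mul,
      integral_const_mul, setIntegral_indicator measurableSet_ball,
      setIntegral_indicator measurableSet_ball.compl, hset,
      inter_eq_self_of_subset_right (ball_subset_ball hrR.le), integral_const_mul]
  rw [hA0] at hA
  unfold th
  rw [mu_real hG measurableSet_ball hbr, mu_real hG measurableSet_ball hb, div_eq_inv_mul,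
    div_eq_inv_mul]
  linarith

end

end Pool.Agent.H1.AN
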