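import Pool.Agent.H1.AN.MNT
import Pool.Agent.H80.AN.TargetsA

/-!
# Row MNT of allh_modules
-/

set_option autoImplicit false

namespace Pool.Agent.H1.AN

open Pool.Agent.H22.AN

/-- the monotonicity formula, in the form of the board (no hypothesis is used) -/
theorem pf_MNT : T_MNT := fun _ _ _ hG hS x _ _ hr hrR hb =>
  ⟨(mono_formula hG hS x hr hrR hb).1, (mono_formula hG hS x hr hrR hb).2.le⟩

end Pool.Agent.H1.AN
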