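import Pool.Agent.H1.AN.MNT
import Pool.Agent.H80.AN.TargetsA
import Pool.Agent.H87.AN.TargetsC

/-!
# Row REC of allh_modules (MP_2697e3_an): the recursion
-/

set_option autoImplicit false

namespace Pool.Agent.H1.AN

open MeasureTheory Metric Set Filter Topology Pool.Agent.H87.SN Pool.Agent.H87.SH Pool.Agent.H87.AX
open Pool.Agent.H22.AN
open scoped ContDiff RealInnerProductSpace ENNReal

noncomputable section

variable {d m : ℕ}

theorem dist_zm (c : V d) {r : ℝ} (hr : 0 < r) (g : V d ≃ₗᵢ[ℝ] V d) (y y' : V d) :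
    dist (zm c r g y) (zm c r g y') = r * dist y y' := by
  rw [dist_eq_norm, dist_eq_norm]
  unfold zm
  rw [add_sub_add_left_eq_sub, ← smul_sub, ← map_sub, norm_smul, LinearIsometryEquiv.norm_map,
    Real.norm_of_nonneg hr.le]

theorem zm_surj (c : V d) {r : ℝ} (hr : 0 < r) (g : V d ≃ₗᵢ[ℝ] V d) :
    Function.Surjective (zm c r g) := by
  intro z
  refine ⟨g.symm (r⁻¹ • (z - c)), ?_⟩
  simp only [zm, LinearIsometryEquiv.apply_symm_apply]
  rw [smul_inv_smul₀ hr.ne']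
  abel

theorem zm_cont (c : V d) (r : ℝ) (g : V d ≃ₗᵢ[ℝ] V d) : Continuous (zm c r g) := by
  unfold zm
  exact continuous_const.add (g.continuous.const_smul r)

/-- transport of an integral to the frame -/
theorem transp (hZMU : T_ZMU) {G : V d → V d →L[ℝ] E m}
    (hG : MemLp G 2 (volume.restrict (ball (0 : V d) 2))) (p : V d) {s : ℝ}
    (g : V d ≃ₗᵢ[ℝ] V d) (hs : 0 < s) (hb : ball p (2 * s) ⊆ ball 0 2) {f : V d → ℝ≥0∞}
    (hf : Measurable f) {T : Set (V d)} (hT : MeasurableSet T) :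
    ∫⁻ y in zm p s g ⁻¹' T, f (zm p s g y) =
      ENNReal.ofReal ((s ^ (d + 2))⁻¹) * ∫⁻ z in T, f z := by
  obtain ⟨-, -, h3, -, -, -⟩ := hZMU d m G p s g hG hs hb
  rw [h3 f _ hf (hT.preimage (zm_cont p s g).measurable), image_preimage_eq T (zm_surj p hs g)]

theorem th_meas (hMUF : T_MUF) {G : V d → V d →L[ℝ] E m}
    (hG : MemLp G 2 (volume.restrict (ball (0 : V d) 2))) (t : ℝ) :
    Measurable (fun x => th G x t) := by
  obtain ⟨-, -, -, -, -, h6⟩ := hMUF d m G hG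
  unfold th
  exact ((h6 t).div_const _).measurable

/-- the factor of the zoom -/
theorem fscale {D S Q A X c k₁ k₂ k₃ J₁ J₂ J₃ : ℝ≥0∞} (hQ : D * S = Q)
    (h : A * (S * X) ≤ c * (k₁ * (S * J₁) + k₂ * (S * J₂) + k₃ * (S * J₃))) :
    Q * A * X ≤ c * (Q * k₁ * J₁ + Q * k₂ * J₂ + Q * k₃ * J₃) := by
  rw [← hQ]
  calc D * S * A * X = D * (A * (S * X)) := by ring
    _ ≤ D * (c * (k₁ * (S * J₁) + k₂ * (S * J₂) + k₃ * (S * J₃))) := mul_le_mul_right h _
    _ = _ := by ring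

theorem sj_add (i j : ℕ) : sj (i + j) = sj i * sj j := by
  unfold sj
  rw [pow_add]

theorem pf_REC (hLOC : T_LOC) (hSEL : T_SEL) (hFMO : T_FMO) (hZMU : T_ZMU) (hZOM : T_ZOM)
    (hMUF : T_MUF) (hBTM : T_BTM) : T_REC := by
  intro d m L Λ ε er e e₀ η hd hL hΛ hε her hEP he heer he0 hη
  have he0p : 0 < e₀ / 2 ^ d := by positivity
  obtain ⟨C, hC, hLO⟩ := hLOC d m L Λ ε er e (e₀ / 2 ^ d) hd hL hΛ hε her hEP he heer he0p
  obtain ⟨q, hq⟩ : ∃ q : ℕ, C * (1 / 2) ^ q ≤ η := by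
    obtain ⟨n, hn⟩ := exists_pow_lt_of_lt_one (show (0 : ℝ) < η / (C + 1) by positivity)
      (show (1 / 2 : ℝ) < 1 by norm_num)
    refine ⟨n, ?_⟩
    rw [lt_div_iff₀ (by positivity)] at hn
    have : (0 : ℝ) ≤ (1 / 2) ^ n := by positivity
    nlinarith
  obtain ⟨a, b, r, K, om, ha, hab, hr, hom, hLO⟩ := hLO q
  obtain ⟨K₀, ν, hν, hSE⟩ := hSEL d m Λ (e₀ / 2 ^ d) om hd hΛ he0p hom
  refine ⟨a, b, r, max K K₀, ν, ha, hab, hr, hν, fun U u G hSM => ?_⟩
  intro x j hball hW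
  have hG := hSM.gd.memG
  set s : ℝ := sj j with hsdef
  have hs : 0 < s := by
    rw [hsdef]
    unfold sj
    positivity
  have hra : (1 / 2 : ℝ) ^ r ≤ 1 / 256 := by
    calc (1 / 2 : ℝ) ^ r ≤ (1 / 2) ^ 8 := pow_le_pow_of_le_one (by norm_num) (by norm_num) hr
      _ = 1 / 256 := by norm_num
  have haa : (1 / 2 : ℝ) ^ a ≤ 1 / 16 := by
    calc (1 / 2 : ℝ) ^ a ≤ (1 / 2) ^ 4 := pow_le_pow_of_le_one (by norm_num) (by norm_num) ha
      _ = 1 / 16 := by norm_num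
  have hbb : (1 / 2 : ℝ) ^ b ≤ 1 / 16 := by
    calc (1 / 2 : ℝ) ^ b ≤ (1 / 2) ^ 4 :=
          pow_le_pow_of_le_one (by norm_num) (by norm_num) (by omega)
      _ = 1 / 16 := by norm_num
  have hr0 : (0 : ℝ) < (1 / 2) ^ r := by positivity
  have ha0 : (0 : ℝ) < (1 / 2) ^ a := by positivity
  have hb0 : (0 : ℝ) < (1 / 2) ^ b := by positivity
  have ejr : sj (j + r) = s * (1 / 2) ^ r := sj_add j r
  have ejar : sj (j + a + r) = s * ((1 / 2) ^ a * (1 / 2) ^ r) := by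
    rw [sj_add, sj_add, mul_assoc]
    rfl
  have ejbr : sj (j + b + r) = s * ((1 / 2) ^ b * (1 / 2) ^ r) := by
    rw [sj_add, sj_add, mul_assoc]
    rfl
  have ej3 : sj (j + 3) = s * (1 / 8) := by
    rw [sj_add, ← hsdef]
    congr 1
    unfold sj
    norm_num
  have ejrr : sj r = (1 / 2) ^ r := rfl
  -- the empty case
  by_cases hex : ∃ y : V d, y ∈ ball x (sj (j + r) / 256) ∧ e₀ ≤ th G y (sj (j + a + r))
  swap
  · have h1 : {y : V d | y ∈ ball x (sj (j + r) / 256) ∧ e₀ ≤ th G y (sj (j + a + r))} = ∅ :=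
      eq_empty_of_forall_notMem fun y hy => hex ⟨y, hy⟩
    have h2 : {y : V d | y ∈ ball x (sj (j + r) / 256) ∧ e₀ ≤ th G y (sj (j + a + r)) ∧
        th G y (sj (j + a + r) / 8) < 2 * er} = ∅ :=
      eq_empty_of_forall_notMem fun y hy => hex ⟨y, hy.1, hy.2.1⟩
    rw [h1, h2]
    simp
  -- the density of the cell
  obtain ⟨y₀, hy₀, hy₀e⟩ := hex
  have hcell : e₀ / 2 ^ d ≤ th G x (s / 64) := by
    rw [ejr, mem_ball] at hy₀
    have hd1 : dist y₀ x < s / 128 := by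
      have : s * (1 / 2) ^ r / 256 ≤ s / 128 := by nlinarith
      linarith
    have hb1 : ball y₀ (s / 128) ⊆ ball x (s / 64) := ball_subset_ball' (by linarith)
    have hb2 : ball y₀ (s / 128) ⊆ ball 0 2 :=
      hb1.trans ((ball_subset_ball (by linarith)).trans hball)
    have ht : s * ((1 / 2) ^ a * (1 / 2) ^ r) < s / 128 := by
      have h1 : (1 / 2 : ℝ) ^ a * (1 / 2) ^ r ≤ 1 / 16 * (1 / 256) := by gcongr
      nlinarith
    have hm := mono_formula hG hSM.gd.stat y₀ (r := s * ((1 / 2) ^ a * (1 / 2) ^ r))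
      (by positivity) ht hb2
    have hpos : 0 ≤ ∫ y in ball y₀ (s / 128) \ ball y₀ (s * ((1 / 2) ^ a * (1 / 2) ^ r)),
        (‖y - y₀‖ ^ (d + 2))⁻¹ * ‖G y (y - y₀)‖ ^ 2 :=
      integral_nonneg fun y => by positivity
    have h1 : e₀ ≤ th G y₀ (s / 128) := by
      rw [ejar] at hy₀e
      linarith [hm.2]
    have hfin : mu G (ball x (s / 64)) ≠ ⊤ :=
      ((measure_mono (subset_univ _)).trans_lt (lt_top_iff_ne_top.2 (hMUF d m G hG).1)).ne
    have h2 : (mu G).real (ball y₀ (s / 128)) ≤ (mu G).real (ball x (s / 64)) :=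
      measureReal_mono hb1 hfin
    unfold th at h1 ⊢
    rw [le_div_iff₀ (by positivity)] at h1
    rw [le_div_iff₀ (by positivity)]
    calc e₀ / 2 ^ d * (s / 64) ^ d = e₀ * (s / 128) ^ d := by
          rw [show s / 64 = 2 * (s / 128) by ring, mul_pow]
          field_simp
      _ ≤ _ := h1.trans h2
  obtain ⟨p, hp, g, x₀, hzx, hFr⟩ := hSE (max K K₀) (le_max_right _ _) G hSM.gd x s hs hball
    hcell hW
  rw [mem_ball] at hp
  have hpb : ball p (2 * s) ⊆ ball 0 2 := (ball_subset_ball' (by linarith)).trans hball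
  obtain ⟨hSM', -⟩ := hZOM d m L Λ ε U u G hSM p s g hs hpb
  have hFr' := hFMO d m Λ (zG p s g G) hSM'.gd _ ((1 / 2) ^ K) om (e₀ / 2 ^ d) x₀
    (by positivity) (pow_le_pow_of_le_one (by norm_num) (by norm_num) (le_max_left K K₀))
    (pow_le_one₀ (by norm_num) (by norm_num)) hFr
  obtain ⟨hL1, hL2⟩ := hLO _ _ _ hSM' x₀ hFr'
  have hx₀ := hFr.x0
  obtain ⟨-, -, -, -, h5, h6⟩ := hZMU d m G p s g hG hs hpb
  have hbx : ∀ y ∈ ball x₀ (1 / 16), ∀ t : ℝ, t ≤ 1 → ball y t ⊆ ball (0 : V d) 2 := by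
    intro y hy t ht
    refine ball_subset_ball' ?_
    rw [mem_ball] at hy
    have h1 := dist_triangle y x₀ 0
    rw [dist_zero_right x₀] at h1
    linarith
  have hth : ∀ y ∈ ball x₀ (1 / 16), ∀ t : ℝ, 0 < t → t ≤ 1 / 8 →
      th (zG p s g G) y t = th G (zm p s g y) (s * t) :=
    fun y hy t ht ht' => h5 y t ht (hbx y hy t (by linarith))
  have hbs : ∀ y ∈ ball x₀ (1 / 16), ∀ t : ℝ, 0 < t → t ≤ 1 / 8 →
      bs (zG p s g G) y t = bs G (zm p s g y) (s * t) :=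
    fun y hy t ht ht' => (h6 y t ht (hbx y hy (8 * t) (by linarith))).2
  have hball' : ∀ (y : V d) (ρ : ℝ), zm p s g y ∈ ball x (s * ρ) ↔ y ∈ ball x₀ ρ := by
    intro y ρ
    rw [mem_ball, mem_ball, ← hzx, dist_zm p hs g]
    exact mul_lt_mul_iff_right₀ hs
  have hI : ∀ (ρ t e' : ℝ), 0 < t → t ≤ 1 / 8 → ρ ≤ 1 / 16 →
      ∫⁻ y in {y : V d | y ∈ ball x₀ ρ ∧ e' ≤ th (zG p s g G) y t}, bs (zG p s g G) y t =
      ENNReal.ofReal ((s ^ (d + 2))⁻¹) *
        ∫⁻ z in {z : V d | z ∈ ball x (s * ρ) ∧ e' ≤ th G z (s * t)}, bs G z (s * t) := by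
    intro ρ t e' ht ht' hρ
    have hT : MeasurableSet {z : V d | z ∈ ball x (s * ρ) ∧ e' ≤ th G z (s * t)} :=
      measurableSet_ball.inter (measurableSet_le measurable_const (th_meas hMUF hG _))
    rw [← transp hZMU hG p g hs hpb ((hBTM d m G hG (s * t) (by positivity)).2) hT]
    have hsub : ball x₀ ρ ⊆ ball x₀ (1 / 16) := ball_subset_ball hρ
    have hset : {y : V d | y ∈ ball x₀ ρ ∧ e' ≤ th (zG p s g G) y t} =
        zm p s g ⁻¹' {z : V d | z ∈ ball x (s * ρ) ∧ e' ≤ th G z (s * t)} := by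
      ext y
      constructor
      · rintro ⟨h1, h2⟩
        refine ⟨(hball' y ρ).2 h1, ?_⟩
        rwa [← hth y (hsub h1) t ht ht']
      · rintro ⟨h1, h2⟩
        have h3 := (hball' y ρ).1 h1
        refine ⟨h3, ?_⟩
        rwa [hth y (hsub h3) t ht ht']
    rw [hset]
    refine setLIntegral_congr_fun (hT.preimage (zm_cont p s g).measurable) fun y hy => ?_
    exact hbs y (hsub ((hball' y ρ).1 hy.1)) t ht ht'
  have hI2 : ∀ (ρ t e' w : ℝ), 0 < t → t ≤ 1 / 8 → ρ ≤ 1 / 16 →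
      ∫⁻ y in {y : V d | y ∈ ball x₀ ρ ∧ e' ≤ th (zG p s g G) y t ∧
          th (zG p s g G) y (t / 8) < w},
        ENNReal.ofReal (Real.sqrt (th (zG p s g G) y (t / 128))) =
      ENNReal.ofReal ((s ^ (d + 2))⁻¹) *
        ∫⁻ z in {z : V d | z ∈ ball x (s * ρ) ∧ e' ≤ th G z (s * t) ∧ th G z (s * t / 8) < w},
          ENNReal.ofReal (Real.sqrt (th G z (s * t / 128))) := by
    intro ρ t e' w ht ht' hρ
    have e8 : s * t / 8 = s * (t / 8) := by ring
    have e128 : s * t / 128 = s * (t / 128) := by ring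
    rw [e8, e128]
    have hT : MeasurableSet {z : V d | z ∈ ball x (s * ρ) ∧ e' ≤ th G z (s * t) ∧
        th G z (s * (t / 8)) < w} :=
      measurableSet_ball.inter ((measurableSet_le measurable_const (th_meas hMUF hG _)).inter
        (measurableSet_lt (th_meas hMUF hG _) measurable_const))
    rw [← transp hZMU hG p g hs hpb (f := fun z => ENNReal.ofReal (Real.sqrt (th G z
      (s * (t / 128))))) ((th_meas hMUF hG _).sqrt.ennreal_ofReal) hT]
    have hsub : ball x₀ ρ ⊆ ball x₀ (1 / 16) := ball_subset_ball hρ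
    have hset : {y : V d | y ∈ ball x₀ ρ ∧ e' ≤ th (zG p s g G) y t ∧
          th (zG p s g G) y (t / 8) < w} =
        zm p s g ⁻¹' {z : V d | z ∈ ball x (s * ρ) ∧ e' ≤ th G z (s * t) ∧
          th G z (s * (t / 8)) < w} := by
      ext y
      constructor
      · rintro ⟨h1, h2, h3⟩
        refine ⟨(hball' y ρ).2 h1, ?_, ?_⟩
        · rwa [← hth y (hsub h1) t ht ht']
        · rwa [← hth y (hsub h1) (t / 8) (by positivity) (by linarith)]
      · rintro ⟨h1, h2, h3⟩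
        have h4 := (hball' y ρ).1 h1
        refine ⟨h4, ?_, ?_⟩
        · rwa [hth y (hsub h4) t ht ht']
        · rwa [hth y (hsub h4) (t / 8) (by positivity) (by linarith)]
    rw [hset]
    refine setLIntegral_congr_fun (hT.preimage (zm_cont p s g).measurable) fun y hy => ?_
    show ENNReal.ofReal (Real.sqrt (th (zG p s g G) y (t / 128))) =
      ENNReal.ofReal (Real.sqrt (th G (zm p s g y) (s * (t / 128))))
    rw [hth y (hsub ((hball' y ρ).1 hy.1)) (t / 128) (by positivity) (by linarith)]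
  -- the scaling
  have hQ : ENNReal.ofReal (s ^ d) * ENNReal.ofReal ((s ^ (d + 2))⁻¹) =
      ENNReal.ofReal ((s ^ 2)⁻¹) := by
    rw [← ENNReal.ofReal_mul (by positivity)]
    congr 1
    rw [pow_add]
    field_simp
  have hk : ∀ k : ℝ, ENNReal.ofReal ((s ^ 2)⁻¹) * ENNReal.ofReal ((k ^ 2)⁻¹) =
      ENNReal.ofReal (((s * k) ^ 2)⁻¹) := by
    intro k
    rw [← ENNReal.ofReal_mul (by positivity), mul_pow, mul_inv]
  have hcc : ENNReal.ofReal (C * (1 / 2) ^ q) ≤ ENNReal.ofReal η := ENNReal.ofReal_le_ofReal hq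
  have hrb : (1 / 2 : ℝ) ^ b * (1 / 2) ^ r ≤ 1 / 8 := by
    have h1 : (1 / 2 : ℝ) ^ b * (1 / 2) ^ r ≤ 1 / 16 * (1 / 256) := by gcongr
    linarith
  have hra' : (1 / 2 : ℝ) ^ a * (1 / 2) ^ r ≤ 1 / 8 := by
    have h1 : (1 / 2 : ℝ) ^ a * (1 / 2) ^ r ≤ 1 / 16 * (1 / 256) := by gcongr
    linarith
  have hright : Rr (zG p s g G) e C q a b r x₀ = ENNReal.ofReal (C * (1 / 2) ^ q) * (
      ENNReal.ofReal ((((1 / 2) ^ b * (1 / 2) ^ r) ^ 2)⁻¹) *
        (ENNReal.ofReal ((s ^ (d + 2))⁻¹) *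
        ∫⁻ y in {y : V d | y ∈ ball x (s * (1 / 2) ^ r) ∧
          e ≤ th G y (s * ((1 / 2) ^ b * (1 / 2) ^ r))},
          bs G y (s * ((1 / 2) ^ b * (1 / 2) ^ r))) +
      ENNReal.ofReal ((((1 / 2) ^ r) ^ 2)⁻¹) *
        (ENNReal.ofReal ((s ^ (d + 2))⁻¹) *
        ∫⁻ y in {y : V d | y ∈ ball x (s * (1 / 2) ^ r) ∧ e ≤ th G y (s * (1 / 2) ^ r)},
          bs G y (s * (1 / 2) ^ r)) +
      ENNReal.ofReal (((1 / 2) ^ r) ^ d) *
        (ENNReal.ofReal ((s ^ (d + 2))⁻¹) *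
        ∫⁻ y in {y : V d | y ∈ ball x (s * (1 / 16)) ∧ e ≤ th G y (s * (1 / 8))},
          bs G y (s * (1 / 8)))) := by
    unfold Rr
    rw [hI _ _ e (by positivity) hrb (by linarith), hI _ _ e (by positivity) (by linarith)
      (by linarith), hI _ _ e (by norm_num) le_rfl le_rfl]
  have hfin : ∀ X : ℝ≥0∞, ENNReal.ofReal ((((1 / 2) ^ a * (1 / 2) ^ r) ^ 2)⁻¹) *
      (ENNReal.ofReal ((s ^ (d + 2))⁻¹) * X) ≤ Rr (zG p s g G) e C q a b r x₀ →
      ENNReal.ofReal ((sj (j + a + r) ^ 2)⁻¹) * X ≤ Rw G e η b r (fun _ => 1) x j := by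
    intro X hX
    rw [hright] at hX
    have h1 := fscale hQ hX
    rw [hk, hk, hk] at h1
    have h2 : ENNReal.ofReal ((s ^ 2)⁻¹) * ENNReal.ofReal (((1 / 2) ^ r) ^ d) =
        ENNReal.ofReal (sj r ^ d * (s ^ 2)⁻¹) := by
      rw [← ENNReal.ofReal_mul (by positivity), mul_comm]
      rfl
    rw [h2] at h1
    rw [ejar]
    refine h1.trans ((mul_le_mul_left hcc _).trans (le_of_eq ?_))
    unfold Rw
    simp only [one_mul]
    rw [ejbr, ejr, ej3, ← hsdef, show s * (1 / 16) = s / 16 by ring]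
  constructor
  · refine le_trans (mul_le_mul_right (lintegral_mono_set ?_) _) (hfin
      (∫⁻ z in {z : V d | z ∈ ball x (s * ((1 / 2) ^ r / 256)) ∧
        e₀ / 2 ^ d ≤ th G z (s * ((1 / 2) ^ a * (1 / 2) ^ r))},
        bs G z (sj (j + a + r))) ?_)
    · rintro y ⟨h1, h2⟩
      refine ⟨?_, ?_⟩
      · rwa [ejr, mul_div_assoc] at h1
      · rw [ejar] at h2
        refine le_trans (div_le_self he0.le (one_le_pow₀ (by norm_num))) h2
    · rw [ejar, ← hI _ _ (e₀ / 2 ^ d) (by positivity) hra' (by linarith)]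
      exact hL1
  · refine le_trans (mul_le_mul_right (lintegral_mono_set ?_) _) (hfin
      (∫⁻ z in {z : V d | z ∈ ball x (s * ((1 / 2) ^ r / 256)) ∧
        e₀ / 2 ^ d ≤ th G z (s * ((1 / 2) ^ a * (1 / 2) ^ r)) ∧
        th G z (s * ((1 / 2) ^ a * (1 / 2) ^ r) / 8) < 2 * er},
        ENNReal.ofReal (Real.sqrt (th G z (sj (j + a + r) / 128)))) ?_)
    · rintro y ⟨h1, h2, h3⟩
      refine ⟨?_, ?_, ?_⟩
      · rwa [ejr, mul_div_assoc] at h1
      · rw [ejar] at h2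
        refine le_trans (div_le_self he0.le (one_le_pow₀ (by norm_num))) h2
      · rwa [ejar] at h3
    · rw [ejar, ← hI2 _ _ (e₀ / 2 ^ d) (2 * er) (by positivity) hra' (by linarith)]
      exact hL2

end

end Pool.Agent.H1.AN
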